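import Mathlib
import Pool.Agent.Helper24.CB.Metric

/-!
# MP_07f5e0_an: connected branches of periodic solutions near an orbit of equilibria

`Γ` is a compact Lie group, `E` a finite-dimensional real inner product space with an orthogonal
(smooth) representation `ρ` of `Γ`, `Ω ⊆ E` open and invariant, `U : Ω → ℝ` invariant of class `C²`,
`∇U(u₀) = 0`.  The space `H¹_{2π}` is `H1 E` below: the `2π`-periodic functions `ℝ → E` which are
absolutely continuous on `[0, 2π]` with square integrable derivative, with the distance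
`(∫₀^{2π} ‖u - v‖² + ‖u' - v'‖²)^{1/2}`.

Assume (A) `dim ker ∇²U(u₀) = dim Γ(u₀)` (the dimension of the orbit is the rank of the
derivative at `1` of `γ ↦ γ u₀`) or (B) `u₀` is a local minimum of `U` and the orbit `Γ(u₀)` is
isolated in `(∇U)⁻¹(0)`.  No hypothesis on the stabilizer of `u₀` is made.  If `β > 0`, `β²` is an
eigenvalue of `∇²U(u₀)` and `β` is admissible, then there is a connected set `C ⊆ H¹_{2π} × (0,∞)`
of non-stationary solutions of `ü = -λ² ∇U(u)` whose closure contains `(ũ₀, 1/β)`, `ũ₀` the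
constant function with value `u₀`.
-/

open MeasureTheory Set Metric Topology
open scoped Real InnerProductSpace ContDiff Manifold

namespace Pool.Agent.Results.MP_07f5e0_an.ConnectedBranches

open Pool.Agent.Helper24.CB

noncomputable section

/-- The space `H¹_{2π}`: `2π`-periodic functions, absolutely continuous on `[0, 2π]`, with square
integrable derivative. -/
structure H1 (E : Type) [NormedAddCommGroup E] [InnerProductSpace ℝ E] where
  /-- the function -/
  toFun : ℝ → E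
  periodic : Function.Periodic toFun (2 * π)
  ac : AbsolutelyContinuousOnInterval toFun 0 (2 * π)
  sq : MemLp (deriv toFun) 2 (volume.restrict (Ioc 0 (2 * π)))

section metric

variable {E : Type} [NormedAddCommGroup E] [InnerProductSpace ℝ E]

/-- the distance of the norm `(∫₀^{2π} ‖u‖² + ‖u'‖²)^{1/2}` -/
def h1dist (u v : H1 E) : ℝ :=
  Real.sqrt (∫ t in (0 : ℝ)..(2 * π), (‖u.toFun t - v.toFun t‖ ^ 2
    + ‖deriv u.toFun t - deriv v.toFun t‖ ^ 2))

theorem h1dist_eq (u v : H1 E) : h1dist u v =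
    ‖H1per.emb ⟨u.toFun, u.periodic, u.ac, u.sq⟩ - H1per.emb ⟨v.toFun, v.periodic, v.ac, v.sq⟩‖ :=
  sqrt_integral_eq ⟨u.toFun, u.periodic, u.ac, u.sq⟩ ⟨v.toFun, v.periodic, v.ac, v.sq⟩

/-- `H¹_{2π}` with the distance `h1dist` -/
instance : PseudoMetricSpace (H1 E) where
  dist := h1dist
  dist_self u := by rw [h1dist_eq, sub_self, norm_zero]
  dist_comm u v := by rw [h1dist_eq, h1dist_eq, norm_sub_rev]
  dist_triangle u v w := by
    rw [h1dist_eq, h1dist_eq, h1dist_eq]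
    exact norm_sub_le_norm_sub_add_norm_sub _ _ _

theorem dist_def (u v : H1 E) : dist u v = h1dist u v := rfl

/-- the identity map between the two models of `H¹` -/
def ofH1per (u : H1per E) : H1 E := ⟨u.toFun, u.periodic, u.ac, u.sq⟩

theorem continuous_ofH1per : Continuous (ofH1per (E := E)) := by
  rw [continuous_iff_continuousAt]
  intro u
  rw [ContinuousAt, tendsto_iff_dist_tendsto_zero]
  have h1 : ∀ v : H1per E, dist (ofH1per v) (ofH1per u) = ‖v.emb - u.emb‖ := fun v => h1dist_eq _ _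
  simp only [h1]
  exact tendsto_iff_norm_sub_tendsto_zero.1 (H1per.continuous_emb.continuousAt (x := u))

end metric

/-- `(u, l)` is a non-stationary solution: `u` takes its values in `Ω`, is twice differentiable,
solves `ü = -l² ∇U(u)`, and is not constant. -/
def IsNonstationarySolution {E : Type} [NormedAddCommGroup E] [InnerProductSpace ℝ E]
    [FiniteDimensional ℝ E] (Ω : Set E) (U : E → ℝ) (u : H1 E) (l : ℝ) : Prop :=
  (∀ t, u.toFun t ∈ Ω) ∧
  (∃ v : ℝ → E, (∀ t, HasDerivAt u.toFun (v t) t) ∧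
    ∀ t, HasDerivAt v (-(l ^ 2) • gradient U (u.toFun t)) t) ∧
  ¬ ∃ c : E, ∀ t, u.toFun t = c

/-- `β` is an admissible frequency: `β > 0`, `β²` is an eigenvalue of the Hessian `H`, and for no
other `b > 0` with `b²` an eigenvalue is `b / β` a natural number. -/
def IsAdmissible {E : Type} [NormedAddCommGroup E] [InnerProductSpace ℝ E] (H : E →L[ℝ] E)
    (β : ℝ) : Prop :=
  0 < β ∧ (∃ x, x ≠ 0 ∧ H x = (β ^ 2) • x) ∧
    ∀ b : ℝ, 0 < b → b ≠ β → (∃ x, x ≠ 0 ∧ H x = (b ^ 2) • x) → ∀ k : ℕ, b / β ≠ k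

section definitions

variable {B HM Γ : Type*} [NormedAddCommGroup B] [NormedSpace ℝ B] [TopologicalSpace HM]
  [TopologicalSpace Γ] [ChartedSpace HM Γ] [Group Γ]
  {E : Type} [NormedAddCommGroup E] [InnerProductSpace ℝ E] [FiniteDimensional ℝ E]

/-- the orthogonal representation `ρ` is smooth, as a map from `Γ` to the space of linear maps -/
def IsSmoothRep (I : ModelWithCorners ℝ B HM) (ρ : Γ →* (E ≃ₗᵢ[ℝ] E)) : Prop :=
  ContMDiff I 𝓘(ℝ, E →L[ℝ] E) ∞ (fun γ => ((ρ γ).toContinuousLinearEquiv : E →L[ℝ] E))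

/-- the dimension of the orbit of `u₀`: the rank of the derivative at `1` of `γ ↦ ρ γ u₀` -/
def orbitDim (I : ModelWithCorners ℝ B HM) (ρ : Γ →* (E ≃ₗᵢ[ℝ] E)) (u₀ : E) : ℕ :=
  Module.finrank ℝ (LinearMap.range (mfderiv I 𝓘(ℝ, E) (fun γ : Γ => ρ γ u₀) 1).toLinearMap)

/-- the Hessian -/
def hess (U : E → ℝ) (u₀ : E) : E →L[ℝ] E := fderiv ℝ (gradient U) u₀

/-- hypothesis (A): the dimension of the kernel of the Hessian at `u₀` is that of the orbit -/
def HypA (I : ModelWithCorners ℝ B HM) (ρ : Γ →* (E ≃ₗᵢ[ℝ] E)) (U : E → ℝ) (u₀ : E) : Prop :=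
  Module.finrank ℝ (LinearMap.ker (hess U u₀).toLinearMap) = orbitDim I ρ u₀

/-- hypothesis (B): `u₀` is a local minimum of `U`, and the orbit of `u₀` is isolated in the set of
critical points of `U` in `Ω` -/
def HypB (ρ : Γ →* (E ≃ₗᵢ[ℝ] E)) (Ω : Set E) (U : E → ℝ) (u₀ : E) : Prop :=
  IsLocalMin U u₀ ∧ ∃ O : Set E, IsOpen O ∧ (∀ γ, ρ γ u₀ ∈ O) ∧
    ∀ x ∈ O ∩ Ω, gradient U x = 0 → ∃ γ, x = ρ γ u₀

/-- `Ω` is open and invariant, `U` is of class `C²` on `Ω` and invariant -/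
def IsInvariantPotential (ρ : Γ →* (E ≃ₗᵢ[ℝ] E)) (Ω : Set E) (U : E → ℝ) : Prop :=
  IsOpen Ω ∧ ContDiffOn ℝ 2 U Ω ∧ ∀ γ, ∀ x ∈ Ω, ρ γ x ∈ Ω ∧ U (ρ γ x) = U x

/-- the conclusion: a connected set of non-stationary solutions, with positive `λ`, whose closure
contains the pair of the constant function `u₀` and `1 / β` -/
def HasConnectedBranch (Ω : Set E) (U : E → ℝ) (u₀ : E) (β : ℝ) : Prop :=
  ∃ C : Set (H1 E × ℝ), IsConnected C ∧
    (∀ p ∈ C, 0 < p.2 ∧ IsNonstationarySolution Ω U p.1 p.2) ∧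
    ∃ q ∈ closure C, (∀ t, q.1.toFun t = u₀) ∧ q.2 = β⁻¹

end definitions

theorem result {B HM Γ : Type*} [NormedAddCommGroup B] [NormedSpace ℝ B]
    [FiniteDimensional ℝ B] [TopologicalSpace HM] (I : ModelWithCorners ℝ B HM) [I.Boundaryless]
    [TopologicalSpace Γ] [ChartedSpace HM Γ] [Group Γ] [LieGroup I ∞ Γ] [CompactSpace Γ]
    {E : Type} [NormedAddCommGroup E] [InnerProductSpace ℝ E] [FiniteDimensional ℝ E]
    (ρ : Γ →* (E ≃ₗᵢ[ℝ] E)) (hρ : IsSmoothRep I ρ)
    (Ω : Set E) (U : E → ℝ) (hU : IsInvariantPotential ρ Ω U)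
    (u₀ : E) (hu₀ : u₀ ∈ Ω) (hcrit : gradient U u₀ = 0)
    (hAB : HypA I ρ U u₀ ∨ HypB ρ Ω U u₀)
    (β : ℝ) (hβ : IsAdmissible (hess U u₀) β) :
    HasConnectedBranch Ω U u₀ β := by
  obtain ⟨hΩ, hU, hinv⟩ := hU
  unfold IsSmoothRep at hρ
  unfold HypA HypB hess orbitDim at hAB
  unfold hess at hβ
  obtain ⟨hβ0, hev, hadm⟩ := hβ
  obtain ⟨𝔤, hskew, hgrad, hTiff, δa, hδa, hclause⟩ := orbit_algebra I ρ hρ Ω hΩ U hU hinv u₀
  have hUat : ContDiffAt ℝ 2 U u₀ := hU.contDiffAt (hΩ.mem_nhds hu₀)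
  set H : E →L[ℝ] E := fderiv ℝ (gradient U) u₀ with hH
  -- the tangent space of the orbit
  let T : Submodule ℝ E := 𝔤.map (ContinuousLinearMap.apply ℝ E u₀).toLinearMap
  have hT : ∀ τ, τ ∈ T ↔ ∃ η ∈ 𝔤, η u₀ = τ := by
    intro τ
    simp [T, Submodule.mem_map]
  have hTfr : Module.finrank ℝ T = Module.finrank ℝ
      (LinearMap.range (mfderiv I 𝓘(ℝ, E) (fun γ : Γ => ρ γ u₀) 1).toLinearMap) := by
    have h1 : T = (LinearMap.range (mfderiv I 𝓘(ℝ, E) (fun γ : Γ => ρ γ u₀) 1).toLinearMap :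
        Submodule ℝ E) := by
      ext τ
      rw [hT, hTiff]
      rfl
    rw [h1]
    rfl
  -- the tangent space lies in the kernel of the Hessian
  have hTker : ∀ τ ∈ T, H τ = 0 := by
    intro τ hτ
    obtain ⟨η, hη, rfl⟩ := (hT τ).1 hτ
    have hgd : DifferentiableAt ℝ (gradient U) u₀ :=
      (gradient_contDiffAt U u₀ hUat).differentiableAt (by simp)
    have h1 : ∀ y, ⟪H y, η u₀⟫_ℝ = 0 := by
      intro y
      have h2 : HasFDerivAt (fun x => ⟪gradient U x, η x⟫_ℝ)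
          ((fderivInnerCLM ℝ (gradient U u₀, η u₀)).comp (H.prod η)) u₀ :=
        hgd.hasFDerivAt.inner ℝ η.hasFDerivAt
      have h3 : (fun x => ⟪gradient U x, η x⟫_ℝ) =ᶠ[𝓝 u₀] fun _ => 0 := by
        filter_upwards [hΩ.mem_nhds hu₀] with x hx using hgrad η hη x hx
      have h4 := (h2.congr_of_eventuallyEq h3.symm).unique (hasFDerivAt_const (0 : ℝ) u₀)
      have h5 := congrArg (fun L : E →L[ℝ] ℝ => L y) h4
      simpa [hcrit] using h5
    have h2 : ∀ y, ⟪y, H (η u₀)⟫_ℝ = 0 := by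
      intro y
      rw [← hess_symm U u₀ hUat]
      exact h1 y
    exact inner_self_eq_zero.1 (h2 _)
  -- cut-off
  obtain ⟨W, hW, δc, hδc, hballΩ, hWU⟩ := exists_cutoff Ω hΩ U hU u₀ hu₀
  have hGW : ∀ x ∈ ball u₀ δc, gradient W x = gradient U x := gradient_congr U W _ isOpen_ball hWU
  have hu₀c : u₀ ∈ ball u₀ δc := mem_ball_self hδc
  have hHW : fderiv ℝ (gradient W) u₀ = H := hess_congr U W _ isOpen_ball hWU u₀ hu₀c
  -- residual
  have hres : ∃ δ > 0, ∀ x, ‖x - u₀‖ < δ → gradient U x ∈ T → gradient U x = 0 := by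
    refine ⟨min δa δc, lt_min hδa hδc, fun x hx hxT => ?_⟩
    have hxΩ : x ∈ Ω := hballΩ (by
      rw [mem_ball, dist_eq_norm]; exact hx.trans_le (min_le_right _ _))
    exact hclause _ ((hT _).1 hxT) x (hx.trans_le (min_le_left _ _)) fun η hη => hgrad η hη x hxΩ
  -- the hypotheses on the slice
  have hAB' : (Module.finrank ℝ (LinearMap.ker (fderiv ℝ (gradient U) u₀).toLinearMap)
        = Module.finrank ℝ T) ∨
      (IsLocalMin U u₀ ∧ ∃ δ > 0, ∀ x, ‖x - u₀‖ < δ → x - u₀ ∈ Tᗮ → gradient U x = 0 → x = u₀) := by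
    rcases hAB with h | ⟨hmin, O, hO, hOorb, hiso⟩
    · left
      rw [hTfr]; exact h
    · right
      refine ⟨hmin, ?_⟩
      obtain ⟨δs, hδs, hs⟩ := orbit_slice_isolated I ρ hρ u₀
      have hOu : O ∈ 𝓝 u₀ := hO.mem_nhds (by simpa using hOorb 1)
      obtain ⟨δo, hδo, hbo⟩ := Metric.mem_nhds_iff.1 hOu
      refine ⟨min δs (min δo δc), by positivity, fun x hx hxT hx0 => ?_⟩
      have hx1 : x ∈ ball u₀ δo := by
        rw [mem_ball, dist_eq_norm]
        exact hx.trans_le ((min_le_right _ _).trans (min_le_left _ _))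
      have hx2 : x ∈ Ω := hballΩ (by
        rw [mem_ball, dist_eq_norm]
        exact hx.trans_le ((min_le_right _ _).trans (min_le_right _ _)))
      obtain ⟨γ, hγ⟩ := hiso x ⟨hbo hx1, hx2⟩ hx0
      rw [hγ]
      refine hs γ ?_ fun ξ => ?_
      · rw [← hγ]; exact hx.trans_le (min_le_left _ _)
      · rw [← hγ]
        refine (Submodule.mem_orthogonal' T (x - u₀)).1 hxT _ ?_
        rw [hT, hTiff]
        exact ⟨ξ, rfl⟩
  obtain ⟨L, hL⟩ := slice_homotopy Ω hΩ U hU u₀ hu₀ hcrit T hTker hres hAB'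
  set δ : ℝ := min δa δc with hδ
  have hδ0 : 0 < δ := lt_min hδa hδc
  have hballδ : ball u₀ δ ⊆ ball u₀ δc := ball_subset_ball (min_le_right _ _)
  obtain ⟨C, hCc, hCs, q, hq, hq1, hq2⟩ := local_branch W hW u₀ (by rw [hGW u₀ hu₀c]; exact hcrit)
    𝔤 hskew δ hδ0
    (fun η hη x hx => by rw [hGW x (hballδ hx)]; exact hgrad η hη x (hballΩ (hballδ hx)))
    (fun τ hτ x hx => hclause τ hτ x (hx.trans_le (min_le_left _ _)))
    T hT β hβ0 (by rw [hHW]; exact hev)
    (by
      intro k hk x hx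
      rw [hHW] at hx
      by_contra hx0
      have hk0 : (0 : ℝ) < k := by
        have : 0 < k := by omega
        exact_mod_cast this
      refine hadm ((k : ℝ) * β) (by positivity) ?_ ⟨x, hx0, hx⟩ k ?_
      · intro h
        have h1 : (k : ℝ) = 1 := by
          have : ((k : ℝ) - 1) * β = 0 := by linarith
          rcases mul_eq_zero.1 this with h2 | h2
          · linarith
          · exact absurd h2 hβ0.ne'
        have h2 : k = 1 := by exact_mod_cast h1
        omega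
      · field_simp)
    L (by
      intro R hR
      obtain ⟨r, hr0, hrR, -, hne, Hm, hm1, hm2, hm3, hm4⟩ := hL (min R δc) (lt_min hR hδc)
      have hv : ∀ v : Tᗮ, ‖v‖ ≤ r → gradient W (u₀ + v) = gradient U (u₀ + v) := by
        intro v hv
        refine hGW _ ?_
        rw [mem_ball, dist_eq_norm, add_sub_cancel_left]
        exact (lt_of_le_of_lt hv hrR).trans_le (min_le_right _ _)
      refine ⟨r, hr0, hrR.trans_le (min_le_left _ _), ?_, Hm, hm1, ?_, hm3, hm4⟩
      · intro v hv1 hv2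
        rw [hv v hv1] at hv2
        exact hne v hv1 hv2
      · intro v hv1
        rw [hv v (by simpa using (mem_sphere_zero_iff_norm.1 hv1).le)]
        exact hm2 v hv1)
  set κ : H1per E × ℝ → H1 E × ℝ := Prod.map ofH1per id with hκ
  have hκc : Continuous κ := continuous_ofH1per.prodMap continuous_id
  refine ⟨κ '' C, hCc.image κ hκc.continuousOn, ?_, κ q,
    image_closure_subset_closure_image hκc (mem_image_of_mem κ hq), hq1, hq2⟩
  rintro _ ⟨p, hp, rfl⟩
  obtain ⟨h1, h2, ⟨d, hd1, hd2⟩, h3⟩ := hCs p hp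
  refine ⟨h1, fun t => hballΩ (hballδ (h2 t)), ⟨d, hd1, fun t => ?_⟩, h3⟩
  have h4 := hd2 t
  rw [hGW _ (hballδ (h2 t))] at h4
  exact h4

end

end Pool.Agent.Results.MP_07f5e0_an.ConnectedBranches
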